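import Pool.Agent.helper23.CU.Spec

/-!
# AS: asymptotics
-/

open Finset Filter Topology

namespace CU

theorem AS_log (B ε : ℝ) (hB : 0 ≤ B) (hε : 0 < ε) (p : ℕ) :
    ∀ᶠ x : ℝ in atTop, B * Real.log x ^ p ≤ ε * x := by
  have h1 : 0 < ε / (B + 1) := div_pos hε (by linarith)
  have h2 := (Real.isLittleO_pow_log_id_atTop (n := p)).def h1
  filter_upwards [h2, eventually_ge_atTop 1] with x hx hx1
  have h3 : Real.log x ^ p ≤ ε / (B + 1) * x := by
    refine (le_abs_self _).trans ?_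
    have h4 : ‖x‖ = x := Real.norm_of_nonneg (by linarith)
    rw [Real.norm_eq_abs, id_eq, h4] at hx
    exact hx
  calc B * Real.log x ^ p ≤ B * (ε / (B + 1) * x) := mul_le_mul_of_nonneg_left h3 hB
    _ = (B / (B + 1)) * (ε * x) := by ring
    _ ≤ 1 * (ε * x) := by
      refine mul_le_mul_of_nonneg_right ?_ (by positivity)
      rw [div_le_one (by linarith)]
      linarith
    _ = ε * x := one_mul _

/-- bound of `(1 - q^m)^(s/m)` -/
theorem AS_pow {u x : ℝ} (hu : 0 < u) (hu1 : u ≤ 1) (m : ℕ) (hm : 0 < m) (t : ℕ)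
    (ht : u⁻¹ * x ≤ t) : (1 - u) ^ ((m * t + 2) / m) ≤ Real.exp (-x) := by
  have h1 : t ≤ (m * t + 2) / m := by
    rw [Nat.le_div_iff_mul_le hm]
    nlinarith
  have h2 : 0 ≤ 1 - u := by linarith
  have h3 : 1 - u ≤ 1 := by linarith
  calc (1 - u) ^ ((m * t + 2) / m) ≤ (1 - u) ^ t := pow_le_pow_of_le_one h2 h3 h1
    _ ≤ (Real.exp (-u)) ^ t := by
      refine pow_le_pow_left₀ h2 ?_ t
      have := Real.add_one_le_exp (-u)
      linarith
    _ = Real.exp (t * (-u)) := (Real.exp_nat_mul _ _).symm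
    _ ≤ Real.exp (-x) := by
      refine Real.exp_le_exp.2 ?_
      have h4 : u * (u⁻¹ * x) ≤ u * t := mul_le_mul_of_nonneg_left ht hu.le
      rw [← mul_assoc, mul_inv_cancel₀ hu.ne', one_mul] at h4
      linarith

theorem AS_det (d k : ℕ) (β C c : ℝ) (hC : 0 < C) (hc : 0 < c) (n : ℕ) (x l C₁ K A : ℝ)
    (hx : x = (n : ℝ) + 3) (hl : l = Real.log x) (hC1 : C₁ = ((d : ℝ) + k + 1) / c)
    (hK : K = 4 * C₁ + 15) (hA : A = Real.log (1 + Real.exp (4 * d * β)))
    (h1 : 1 ≤ l) (h2 : C₁ * l ≤ x / 100) (h3 : 10000 ≤ x)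
    (ha : x ^ d * (2 * Real.exp (-x)) ≤ 1 / 40000)
    (hb : 4 * C / x ≤ 1 / 40000)
    (hcc : 16 * C * Real.exp (((d : ℝ) + k + (K ^ d + K ^ d * (d + A) + 1)) * l ^ (d + 1) -
      c * (x / 16 - 2)) ≤ 1 / 40000) : ∃ r₁ r L m s : ℕ,
  r₁ ≤ r ∧ 2 * r₁ + 5 ≤ L ∧ 2 * (L + 3 * r + 8) ≤ n + 3 ∧ (2 * L + 1) ^ d ≤ m ∧ 2 ≤ s ∧
  (s : ℝ) * (C * x ^ k * Real.exp (-c * r)) ≤ 1 / 10000 ∧
  x ^ d * (2 * (1 - ((1 / x ^ d) * (1 / (1 + Real.exp (4 * d * β)))) ^ m) ^ (s / m) +
    4 * (C * x ^ k * Real.exp (-c * r₁)) + 4 * (C * x ^ k * Real.exp (-c * r)) +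
    4 * s * (C * x ^ k * Real.exp (-c * r))) ≤ 1 / 10000 := by
  have hx0 : 0 < x := by linarith
  have hx1 : 1 ≤ x := by linarith
  have hC10 : 0 < C₁ := by rw [hC1]; positivity
  have hD : 1 ≤ 1 + Real.exp (4 * d * β) := by
    have := Real.exp_pos (4 * d * β)
    linarith
  have hD0 : 0 < 1 + Real.exp (4 * d * β) := by linarith
  have hA0 : 0 ≤ A := by rw [hA]; exact Real.log_nonneg hD
  have hK0 : 0 < K := by rw [hK]; linarith
  have hexpl : Real.exp l = x := by rw [hl]; exact Real.exp_log hx0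
  obtain ⟨r₁, hr1⟩ : ∃ r₁ : ℕ, r₁ = ⌈C₁ * l⌉₊ := ⟨_, rfl⟩
  have hr1a : C₁ * l ≤ r₁ := by rw [hr1]; exact Nat.le_ceil _
  have hr1b : (r₁ : ℝ) ≤ C₁ * l + 1 := by
    rw [hr1]
    exact (Nat.ceil_lt_add_one (by positivity)).le
  obtain ⟨r, hr⟩ : ∃ r : ℕ, r = n / 16 := ⟨_, rfl⟩
  have hra : 16 * r ≤ n := by omega
  have hrb : n ≤ 16 * r + 15 := by omega
  have hra' : 16 * (r : ℝ) ≤ n := by exact_mod_cast hra
  have hrb' : (n : ℝ) ≤ 16 * r + 15 := by exact_mod_cast hrb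
  obtain ⟨L, hL⟩ : ∃ L : ℕ, L = 2 * r₁ + 5 := ⟨_, rfl⟩
  obtain ⟨m, hm⟩ : ∃ m : ℕ, m = (2 * L + 1) ^ d := ⟨_, rfl⟩
  have hm0 : 0 < m := by rw [hm]; positivity
  obtain ⟨u, hu⟩ : ∃ u : ℝ, u = ((1 / x ^ d) * (1 / (1 + Real.exp (4 * d * β)))) ^ m := ⟨_, rfl⟩
  have hu0 : 0 < u := by rw [hu]; positivity
  have hu1 : u ≤ 1 := by
    rw [hu]
    refine pow_le_one₀ (by positivity) ?_
    refine mul_le_one₀ ?_ (by positivity) ?_
    · rw [div_le_one (by positivity)]
      exact one_le_pow₀ hx1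
    · rw [div_le_one hD0]
      exact hD
  have hui : u⁻¹ = Real.exp (m * (d * l + A)) := by
    rw [Real.exp_nat_mul, Real.exp_add, Real.exp_nat_mul, hexpl, hA, Real.exp_log hD0, hu]
    rw [one_div, one_div, ← mul_inv, inv_pow, inv_inv]
  obtain ⟨t, ht⟩ : ∃ t : ℕ, t = ⌈u⁻¹ * x⌉₊ := ⟨_, rfl⟩
  have hta : u⁻¹ * x ≤ t := by rw [ht]; exact Nat.le_ceil _
  have hui1 : 1 ≤ u⁻¹ := (one_le_inv₀ hu0).2 hu1
  have htb : (t : ℝ) ≤ u⁻¹ * x + 1 := by
    rw [ht]
    exact (Nat.ceil_lt_add_one (by positivity)).le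
  -- bound of `s`
  have hmr : (1 : ℝ) ≤ m := by exact_mod_cast hm0
  have hux : 1 ≤ u⁻¹ * x := one_le_mul_of_one_le_of_one_le hui1 hx1
  have hmux : 1 ≤ m * (u⁻¹ * x) := one_le_mul_of_one_le_of_one_le hmr hux
  have hs1 : ((m * t + 2 : ℕ) : ℝ) ≤ 4 * (m * (u⁻¹ * x)) := by
    push_cast
    have h4 : (m : ℝ) * t ≤ m * (2 * (u⁻¹ * x)) := by
      refine mul_le_mul_of_nonneg_left ?_ (by positivity)
      linarith only [htb, hux]
    linarith only [h4, hmux]
  have hmK : (m : ℝ) ≤ K ^ d * l ^ d := by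
    rw [hm, ← mul_pow]
    push_cast
    refine pow_le_pow_left₀ (by positivity) ?_ d
    rw [hL, hK]
    push_cast
    linarith only [hr1b, h1]
  have hll : l ^ d ≤ l ^ (d + 1) := pow_le_pow_right₀ h1 (Nat.le_succ d)
  have hl1 : l ≤ l ^ (d + 1) := le_self_pow₀ h1 (Nat.succ_ne_zero d)
  have hKd : 0 < K ^ d := by positivity
  have hld : 0 < l ^ d := by positivity
  have hexpo : m + m * (d * l + A) + l ≤ (K ^ d + K ^ d * (d + A) + 1) * l ^ (d + 1) := by
    have e1 : (m : ℝ) ≤ K ^ d * l ^ (d + 1) := hmK.trans (mul_le_mul_of_nonneg_left hll hKd.le)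
    have e2 : d * l + A ≤ (d + A) * l := by
      have e0 : A * 1 ≤ A * l := mul_le_mul_of_nonneg_left h1 hA0
      linarith only [e0]
    have e3 : (m : ℝ) * (d * l + A) ≤ (K ^ d * l ^ d) * ((d + A) * l) := by
      refine mul_le_mul hmK e2 ?_ (by positivity)
      positivity
    have e4 : (K ^ d * l ^ d) * ((d + A) * l) = K ^ d * (d + A) * l ^ (d + 1) := by
      rw [pow_succ]
      ring
    rw [e4] at e3
    linarith only [e1, e3, hl1]
  have hs2 : 4 * (m * (u⁻¹ * x)) ≤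
      4 * Real.exp ((K ^ d + K ^ d * (d + A) + 1) * l ^ (d + 1)) := by
    refine mul_le_mul_of_nonneg_left ?_ (by norm_num)
    calc m * (u⁻¹ * x) ≤ Real.exp m * (Real.exp (m * (d * l + A)) * Real.exp l) := by
          rw [hui, hexpl]
          refine mul_le_mul_of_nonneg_right ?_ (by positivity)
          have := Real.add_one_le_exp (m : ℝ)
          linarith
      _ = Real.exp (m + m * (d * l + A) + l) := by
          rw [Real.exp_add, Real.exp_add, mul_assoc]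
      _ ≤ _ := Real.exp_le_exp.2 hexpo
  obtain ⟨s, hs⟩ : ∃ s : ℕ, s = m * t + 2 := ⟨_, rfl⟩
  have hs3 : (s : ℝ) ≤ 4 * Real.exp ((K ^ d + K ^ d * (d + A) + 1) * l ^ (d + 1)) := by
    rw [hs]
    exact hs1.trans hs2
  have hs4 : (2 : ℝ) ≤ s := by
    have : 2 ≤ s := by omega
    exact_mod_cast this
  have hxpow : ∀ j : ℕ, x ^ j = Real.exp (j * l) := by
    intro j
    rw [Real.exp_nat_mul, hexpl]
  -- the main term
  have hmain : x ^ d * (4 * s * (C * x ^ k * Real.exp (-c * r))) ≤ 1 / 40000 := by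
    refine le_trans ?_ hcc
    have e1 : x ^ d * (4 * s * (C * x ^ k * Real.exp (-c * r))) ≤
        x ^ d * (4 * (4 * Real.exp ((K ^ d + K ^ d * (d + A) + 1) * l ^ (d + 1))) *
          (C * x ^ k * Real.exp (-c * r))) := by
      refine mul_le_mul_of_nonneg_left ?_ (by positivity)
      refine mul_le_mul_of_nonneg_right ?_ (by positivity)
      linarith
    refine e1.trans ?_
    have e2 : x ^ d * (4 * (4 * Real.exp ((K ^ d + K ^ d * (d + A) + 1) * l ^ (d + 1))) *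
          (C * x ^ k * Real.exp (-c * r))) = 16 * C * Real.exp (d * l + k * l +
          (K ^ d + K ^ d * (d + A) + 1) * l ^ (d + 1) + -c * r) := by
      rw [Real.exp_add, Real.exp_add, Real.exp_add, ← hxpow, ← hxpow]
      ring
    rw [e2]
    refine mul_le_mul_of_nonneg_left (Real.exp_le_exp.2 ?_) (by positivity)
    have e3 : (d : ℝ) * l ≤ d * l ^ (d + 1) := mul_le_mul_of_nonneg_left hl1 (by positivity)
    have e4 : (k : ℝ) * l ≤ k * l ^ (d + 1) := mul_le_mul_of_nonneg_left hl1 (by positivity)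
    have e5 : c * (x / 16 - 2) ≤ c * r := by
      refine mul_le_mul_of_nonneg_left ?_ hc.le
      linarith only [hrb', hx]
    linarith only [e3, e4, e5]
  have hE0 : 0 ≤ C * x ^ k * Real.exp (-c * r) := by positivity
  have hxd : 1 ≤ x ^ d := one_le_pow₀ hx1
  refine ⟨r₁, r, L, m, s, ?_, ?_, ?_, ?_, ?_, ?_, ?_⟩
  · have : (r₁ : ℝ) ≤ r := by linarith
    exact_mod_cast this
  · omega
  · have : ((2 * (L + 3 * r + 8) : ℕ) : ℝ) ≤ ((n + 3 : ℕ) : ℝ) := by
      rw [hL]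
      push_cast
      linarith
    exact_mod_cast this
  · exact hm.ge
  · omega
  · have e1 : (s : ℝ) * (C * x ^ k * Real.exp (-c * r)) ≤
        x ^ d * (4 * s * (C * x ^ k * Real.exp (-c * r))) := by
      have e2 : 0 ≤ (s : ℝ) * (C * x ^ k * Real.exp (-c * r)) := by positivity
      have e3 : (s : ℝ) * (C * x ^ k * Real.exp (-c * r)) ≤
          4 * s * (C * x ^ k * Real.exp (-c * r)) := by linarith only [e2]
      have e4 : 0 ≤ 4 * s * (C * x ^ k * Real.exp (-c * r)) := by linarith only [e2]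
      exact e3.trans (le_mul_of_one_le_left e4 hxd)
    linarith only [e1, hmain]
  · have p1 : x ^ d * (2 * (1 - u) ^ (s / m)) ≤ 1 / 40000 := by
      refine le_trans ?_ ha
      refine mul_le_mul_of_nonneg_left ?_ (by positivity)
      rw [hs]
      have := AS_pow hu0 hu1 m hm0 t hta
      linarith
    have p2 : x ^ d * (4 * (C * x ^ k * Real.exp (-c * r₁))) ≤ 1 / 40000 := by
      refine le_trans ?_ hb
      have e1 : Real.exp (-c * r₁) ≤ Real.exp (-((d + k + 1 : ℕ) * l)) := by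
        refine Real.exp_le_exp.2 ?_
        have e2 : c * (C₁ * l) ≤ c * r₁ := mul_le_mul_of_nonneg_left hr1a hc.le
        have e3 : c * (C₁ * l) = ((d + k + 1 : ℕ) : ℝ) * l := by
          rw [hC1]
          push_cast
          field_simp
        rw [e3] at e2
        linarith
      have e4 : Real.exp (-((d + k + 1 : ℕ) * l)) = (x ^ (d + k + 1))⁻¹ := by
        rw [Real.exp_neg, ← hxpow]
      rw [e4] at e1
      calc x ^ d * (4 * (C * x ^ k * Real.exp (-c * r₁)))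
          ≤ x ^ d * (4 * (C * x ^ k * (x ^ (d + k + 1))⁻¹)) := by
            refine mul_le_mul_of_nonneg_left ?_ (by positivity)
            refine mul_le_mul_of_nonneg_left ?_ (by norm_num)
            exact mul_le_mul_of_nonneg_left e1 (by positivity)
        _ = 4 * C / x := by
            rw [pow_succ, pow_add]
            field_simp
    have p3 : x ^ d * (4 * (C * x ^ k * Real.exp (-c * r))) ≤ 1 / 40000 := by
      refine le_trans ?_ hmain
      refine mul_le_mul_of_nonneg_left ?_ (by positivity)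
      have e0 := mul_le_mul_of_nonneg_right hs4 hE0
      linarith only [e0, hE0]
    rw [← hu]
    have p5 : x ^ d * (2 * (1 - u) ^ (s / m) + 4 * (C * x ^ k * Real.exp (-c * r₁)) +
        4 * (C * x ^ k * Real.exp (-c * r)) + 4 * s * (C * x ^ k * Real.exp (-c * r))) =
        x ^ d * (2 * (1 - u) ^ (s / m)) + x ^ d * (4 * (C * x ^ k * Real.exp (-c * r₁))) +
        x ^ d * (4 * (C * x ^ k * Real.exp (-c * r))) +
        x ^ d * (4 * s * (C * x ^ k * Real.exp (-c * r))) := by ring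
    rw [p5]
    linarith

theorem AS : AS_stmt := by
  intro d k β C c hβ hC hc
  obtain ⟨C₁, hC1⟩ : ∃ C₁ : ℝ, C₁ = ((d : ℝ) + k + 1) / c := ⟨_, rfl⟩
  obtain ⟨K, hK⟩ : ∃ K : ℝ, K = 4 * C₁ + 15 := ⟨_, rfl⟩
  obtain ⟨A, hA⟩ : ∃ A : ℝ, A = Real.log (1 + Real.exp (4 * d * β)) := ⟨_, rfl⟩
  have hC10 : 0 < C₁ := by rw [hC1]; positivity
  have hD : 1 ≤ 1 + Real.exp (4 * d * β) := by
    have := Real.exp_pos (4 * d * β)
    linarith
  have hA0 : 0 ≤ A := by rw [hA]; exact Real.log_nonneg hD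
  have hK0 : 0 < K := by rw [hK]; linarith
  obtain ⟨B, hB⟩ : ∃ B : ℝ, B = (d : ℝ) + k + (K ^ d + K ^ d * (d + A) + 1) := ⟨_, rfl⟩
  have hB0 : 0 ≤ B := by rw [hB]; positivity
  have tx : Tendsto (fun n : ℕ => (n : ℝ) + 3) atTop atTop :=
    tendsto_atTop_add_const_right _ _ tendsto_natCast_atTop_atTop
  have e1 : ∀ᶠ x : ℝ in atTop, 1 ≤ Real.log x := Real.tendsto_log_atTop.eventually_ge_atTop 1
  have e2 : ∀ᶠ x : ℝ in atTop, C₁ * Real.log x ^ 1 ≤ (1 / 100) * x :=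
    AS_log C₁ (1 / 100) hC10.le (by norm_num) 1
  have e3 : ∀ᶠ x : ℝ in atTop, 10000 ≤ x := eventually_ge_atTop _
  have e4 : ∀ᶠ x : ℝ in atTop, x ^ d * Real.exp (-x) < 1 / 80000 :=
    (Real.tendsto_pow_mul_exp_neg_atTop_nhds_zero d).eventually_lt_const (by norm_num)
  have e5 : ∀ᶠ x : ℝ in atTop, 160000 * C ≤ x := eventually_ge_atTop _
  have e6 : ∀ᶠ x : ℝ in atTop, B * Real.log x ^ (d + 1) ≤ (c / 32) * x :=
    AS_log B (c / 32) hB0 (by positivity) (d + 1)
  have e7 : ∀ᶠ x : ℝ in atTop, 16 * C * Real.exp (-(c / 32) * x + 2 * c) < 1 / 40000 := by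
    have t1 : Tendsto (fun x : ℝ => -(c / 32) * x + 2 * c) atTop atBot := by
      refine tendsto_atBot_add_const_right _ _ ?_
      exact tendsto_id.const_mul_atTop_of_neg (by
        have : 0 < c / 32 := by positivity
        linarith)
    have t2 : Tendsto (fun x : ℝ => 16 * C * Real.exp (-(c / 32) * x + 2 * c)) atTop (𝓝 0) := by
      have := (Real.tendsto_exp_atBot.comp t1).const_mul (16 * C)
      rw [mul_zero] at this
      exact this
    exact t2.eventually_lt_const (by norm_num)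
  filter_upwards [tx.eventually e1, tx.eventually e2, tx.eventually e3, tx.eventually e4,
    tx.eventually e5, tx.eventually e6, tx.eventually e7] with n h1 h2 h3 h4 h5 h6 h7
  refine AS_det d k β C c hC hc n ((n : ℝ) + 3) (Real.log ((n : ℝ) + 3)) C₁ K A rfl rfl hC1 hK hA
    h1 ?_ h3 ?_ ?_ ?_
  · rw [pow_one] at h2
    linarith
  · linarith
  · rw [div_le_iff₀ (by positivity)]
    linarith
  · rw [← hB]
    refine le_trans ?_ h7.le
    refine mul_le_mul_of_nonneg_left (Real.exp_le_exp.2 ?_) (by positivity)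
    linarith

end CU
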